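import Pool.Agent.N52.ST.Stm

/-!
# Project ST, part SCA: almost invariant block diagonal projections are almost trivial

`P = ∑ j, p j * Z j * p j` is close to an element of the block algebra, and compressing to `p j`
shows that `p j * Z j * p j` is close to a multiple of `p j`. Since `p j` almost commutes with
the projection `Z j`, this multiple is close to `0` or `1` on average.
-/

set_option autoImplicit false

namespace Pool.Agent.N457.ST.SCA

open Matrix Finset
open scoped ComplexOrder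
open Pool.Agent.W661.RC Pool.Agent.W683.RC Pool.Agent.N303.KQ Pool.Agent.N52.NH

/-- real numbers -/
theorem min_le_of {f t E : ℝ} (h0 : 0 ≤ f) (h1 : f ≤ t) (hE : 0 ≤ E)
    (h : f * (t - f) ≤ t * E) : min f (t - f) ≤ 2 * E := by
  rcases eq_or_lt_of_le (h0.trans h1) with h2 | h2
  · have h3 : f = 0 := by linarith
    refine (min_le_left _ _).trans ?_
    rw [h3]
    linarith
  · by_contra hc
    push Not at hc
    have h3 := (lt_min_iff.1 hc).1
    have h4 := (lt_min_iff.1 hc).2
    rcases le_total f (t - f) with h5 | h5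
    · have h6 : 2 * E * (t / 2) < f * (t - f) := by
        have h7 : t / 2 ≤ t - f := by linarith
        calc 2 * E * (t / 2) < f * (t / 2) := by
              exact mul_lt_mul_of_pos_right h3 (by linarith)
          _ ≤ f * (t - f) := mul_le_mul_of_nonneg_left h7 h0
      linarith
    · have h6 : (t / 2) * (2 * E) < f * (t - f) := by
        have h7 : t / 2 ≤ f := by linarith
        calc (t / 2) * (2 * E) < (t / 2) * (t - f) := by
              exact mul_lt_mul_of_pos_left h4 (by linarith)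
          _ ≤ f * (t - f) := mul_le_mul_of_nonneg_right h7 (by linarith)
      linarith

/-- one piece -/
theorem piece {d : ℕ} {p Z : Mt d} (hp : IsPr p) (hZ : IsPr Z) (l : ℂ) :
    min (tr (p * Z)) (tr p - tr (p * Z)) ≤
      2 * (hs (p * Z * p - l • p) + hs (Z * p - p * Z)) := by
  have h1 : tr (p * Z) = hs (Z * p) := by
    rw [hs_eq_tr, conjTranspose_mul, hp.1, hZ.1, ← Matrix.mul_assoc, Matrix.mul_assoc p Z Z,
      hZ.2, tr_mul_comm (p * Z) p, ← Matrix.mul_assoc, hp.2]
  have h2 : tr (p * Z * p) = tr (p * Z) := by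
    rw [tr_mul_comm, ← Matrix.mul_assoc, hp.2]
  have h3 := hs_pyth_left hp (Z * p)
  have h4 : hs ((1 - p) * (Z * p)) ≤ hs (Z * p - p * Z) := by
    have e : (1 - p) * (Z * p) = (1 - p) * ((Z * p - p * Z) * p) := by
      have e1 : (1 - p) * ((Z * p - p * Z) * p) = (1 - p) * (Z * (p * p)) -
          (p - p * p) * Z * p := by noncomm_ring
      rw [e1, hp.2, sub_self, Matrix.zero_mul, Matrix.zero_mul, sub_zero]
    rw [e]
    exact (hs_pr_mul_le_self (pr_compl hp) _).trans (hs_mul_pr_le_self hp _)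
  have hy : (p * Z * p)ᴴ = p * Z * p := by
    rw [conjTranspose_mul, conjTranspose_mul, hp.1, hZ.1, Matrix.mul_assoc]
  have h5 : ip (p * Z * p) p = ((tr (p * Z) : ℝ) : ℂ) := by
    rw [ip, hy, Matrix.mul_assoc (p * Z) p p, hp.2, trace_eq_tr hy, h2]
  have h6 : hs (p * Z * p - l • p) =
      hs (p * Z * p) + (l.re ^ 2 + l.im ^ 2) * tr p - 2 * (l.re * tr (p * Z)) := by
    have e : p * Z * p - l • p = p * Z * p + (-l) • p := by rw [neg_smul, sub_eq_add_neg]
    rw [e, hs_add_ip, ip_smul_right, h5, hs_smul, norm_neg, ← pr_tr_eq_hs hp,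
      ← Complex.normSq_eq_norm_sq, Complex.normSq_apply]
    simp only [Complex.mul_re, Complex.neg_re, Complex.ofReal_re, Complex.ofReal_im, mul_zero,
      sub_zero]
    ring
  have h7 : tr (p * Z) ≤ tr p := by
    rw [h1, pr_tr_eq_hs hp]
    exact hs_pr_mul_le_self hZ p
  have h8 : 0 ≤ tr (p * Z) := by rw [h1]; exact hs_nonneg _
  have h9 : 0 ≤ tr p := h8.trans h7
  have hE1 : 0 ≤ hs (p * Z * p - l • p) := hs_nonneg _
  have hE2 : 0 ≤ hs (Z * p - p * Z) := hs_nonneg _
  refine min_le_of h8 h7 (by linarith) ?_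
  have h10 : tr p * hs (p * Z * p - l • p) ≥ tr p * hs (p * Z * p) - tr (p * Z) ^ 2 := by
    rw [h6]
    nlinarith [sq_nonneg (l.re * tr p - tr (p * Z)), sq_nonneg (l.im * tr p)]
  rw [← Matrix.mul_assoc] at h3
  have h11 : tr (p * Z) ≤ hs (p * Z * p) + hs (Z * p - p * Z) := by
    rw [h1, h3]
    linarith
  nlinarith [mul_le_mul_of_nonneg_left h11 h9]

variable {d : ℕ} {Q : Out d}

theorem eu_mul_ne {i j : Q.I} (h : i ≠ j) : eu Q i i * eu Q j j = 0 := by
  ext a b
  rw [Matrix.mul_apply]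
  refine sum_eq_zero fun m _ => ?_
  simp only [eu]
  by_cases h1 : a = i ∧ m = i
  · rw [if_pos h1, if_neg, mul_zero]
    rintro ⟨h2, -⟩
    exact h (h1.2.symm.trans h2)
  · rw [if_neg h1, zero_mul]

theorem pr_mul_ne {i j : Q.I} (h : i ≠ j) : pr Q i * pr Q j = 0 := by
  rw [pr, pr, Am_mul (BD_eu rfl), eu_mul_ne h, Am, Bm_zero, Matrix.mul_zero, Matrix.zero_mul]

theorem eu_mid (α : Matrix Q.I Q.I ℂ) (j : Q.I) :
    eu Q j j * α * eu Q j j = α j j • eu Q j j := by
  ext a b
  rw [Matrix.mul_apply, sum_eq_single j]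
  · rw [Matrix.mul_apply, sum_eq_single j]
    · simp only [eu, Matrix.smul_apply, smul_eq_mul]
      by_cases ha : a = j <;> by_cases hb : b = j <;> simp [ha, hb]
    · intro m _ hm
      simp only [eu]
      rw [if_neg (fun h => hm h.2), zero_mul]
    · intro h
      exact absurd (mem_univ _) h
  · intro m _ hm
    simp only [eu]
    rw [if_neg (fun h => hm h.1), mul_zero]
  · intro h
    exact absurd (mem_univ _) h

theorem pr_mid {α : Matrix Q.I Q.I ℂ} (hα : BD Q α) (j : Q.I) :
    pr Q j * Am Q α * pr Q j = α j j • pr Q j := by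
  rw [pr, Am_mul (BD_eu rfl), Am_mul ((BD_eu rfl).mul hα), eu_mid, Am_smul]

theorem sum_pinch (X : Mt d) : ∑ j, hs (pr Q j * X * pr Q j) ≤ hs X :=
  (sum_le_sum fun j _ => hs_mul_pr_le_self (pr_isPr j) _).trans (sum_hs_pr_mul X)

theorem sca : Pool.Agent.N52.ST.S_SCA := by
  intro d k u Q K1 ε Z hK hB hZ
  set P : Mt d := ∑ j, pr Q j * Z j * pr Q j with hP
  have hp : ∀ j, IsPr (pr Q j) := fun j => pr_isPr j
  have h1 : P.PosSemidef := by
    rw [hP]
    refine Matrix.posSemidef_sum _ fun j _ => ?_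
    have h := (pr_psd (hZ j)).conjTranspose_mul_mul_same (pr Q j)
    rwa [(hp j).1] at h
  have h2 : Le P 1 := by
    refine Le_trans (b := ∑ j, pr Q j) ?_ ?_
    · rw [hP]
      refine Le_sum _ _ _ fun j _ => ?_
      have h := Le_conj (pr_le_one (hZ j)) (pr Q j)
      rwa [(hp j).1, Matrix.mul_one, (hp j).2] at h
    · rw [sum_pr]
      exact pr_le_one pO_pr
  obtain ⟨c, hc, -, hc2⟩ := hB.near P (sq_le_one h1 h2)
  obtain ⟨α, hα, rfl⟩ := mem_alg.1 hc
  have h3 : ∀ j, pr Q j * (P - Am Q α) * pr Q j = pr Q j * Z j * pr Q j - α j j • pr Q j := by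
    intro j
    rw [Matrix.mul_sub, Matrix.sub_mul, pr_mid hα]
    congr 1
    rw [hP, Matrix.mul_sum, Matrix.sum_mul, sum_eq_single j]
    · calc pr Q j * (pr Q j * Z j * pr Q j) * pr Q j
          = (pr Q j * pr Q j) * Z j * (pr Q j * pr Q j) := by simp only [Matrix.mul_assoc]
        _ = pr Q j * Z j * pr Q j := by rw [(hp j).2]
    · intro i _ hi
      rw [← Matrix.mul_assoc, ← Matrix.mul_assoc, pr_mul_ne (Ne.symm hi), Matrix.zero_mul,
        Matrix.zero_mul, Matrix.zero_mul]
    · intro h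
      exact absurd (mem_univ _) h
  have h4 := sum_pinch (Q := Q) (P - Am Q α)
  simp only [h3] at h4
  calc ∑ j, min (tr (pr Q j * Z j)) (tr (pr Q j) - tr (pr Q j * Z j))
      ≤ ∑ j, 2 * (hs (pr Q j * Z j * pr Q j - α j j • pr Q j) +
          hs (Z j * pr Q j - pr Q j * Z j)) :=
        sum_le_sum fun j _ => piece (hp j) (hZ j) (α j j)
    _ = 2 * (∑ j, hs (pr Q j * Z j * pr Q j - α j j • pr Q j) +
          ∑ j, hs (Z j * pr Q j - pr Q j * Z j)) := by
        rw [← mul_sum, sum_add_distrib]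
    _ ≤ _ := by linarith

theorem main : Pool.Agent.N52.ST.S_SCA := sca

end Pool.Agent.N457.ST.SCA
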